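import Pool.Agent.TH615.ML.Final

/-!
# The simple length spectrum of moduli space has unbounded multiplicity (MP_f17b37_gt, Q1)

For every odd genus `g ≥ 19` and every `N` we construct `N` pseudo-Anosov homeomorphisms
`f_i : X_i → X_i` of closed surfaces of genus `g`, all with the same stretch factor `lam`, whose
closed Teichmueller geodesics in the moduli space are simple and pairwise disjoint.

The surface `X_i` is a double cover `π : X_i → ℝ²/ℤ²` branched over `2 g - 2` torsion points
(so its genus is `g`, by Riemann-Hurwitz), and `f_i` is a lift of a hyperbolic matrix
`A ∈ SL(2, ℤ)` with eigenforms `α`, `β` of eigenvalues `lam`, `lam⁻¹`.  The lifts of the foliations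
`α = const` and `β = const` are the foliations of `f_i` (with `4`-pronged singularities at the
branch points), so `f_i` is pseudo-Anosov with stretch factor `lam`, and its axis in Teichmueller
space, parametrised by arc length, sends `t` to the Riemann surface obtained by giving `ℝ²/ℤ²` the
complex structure of the coordinate `e^t α + i e^{-t} β` and pulling it back by `π`.

The theorem says that the Riemann surfaces with parameters `(i, s)` and `(j, t)` are conformally
equivalent if and only if `i = j` and `s - t` is an integer multiple of `log lam`.  So each of the
`N` closed geodesics has length `log lam`, it has no self-intersections, and no two of them meet;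
in particular they belong to pairwise non-conjugate mapping classes.
-/

set_option autoImplicit false

open Pool.Agent.TH615.ML

namespace Pool.Agent.Results.MP_f17b37_gt.UnboundedSimpleMultiplicity

theorem result (g : ℕ) (hodd : Odd g) (hg : 19 ≤ g) (N : ℕ) :
    ∃ (A : SL2Z) (lam : ℝ) (α β : ℝ × ℝ →ₗ[ℝ] ℝ), 1 < lam ∧
      (∀ v, α (linR A v) = lam * α v) ∧ (∀ v, β (linR A v) = lam⁻¹ * β v) ∧
      0 < α (1, 0) * β (0, 1) - α (0, 1) * β (1, 0) ∧
      ∃ X : Fin N → PALift g A, ∀ i j (s t : ℝ),
        ConfEquiv (X i).toTorusDouble (X j).toTorusDouble (coord α β s) (coord α β t) ↔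
          i = j ∧ ∃ k : ℤ, s - t = k * Real.log lam :=
  main_theorem g hodd hg N

end Pool.Agent.Results.MP_f17b37_gt.UnboundedSimpleMultiplicity
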